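import Mathlib
import Pool.Agent.Helper21.KP.Main

/-!
# The maximal order of the integral means is the order of the Koebe function for `lam ≥ 0.371`
-/

set_option autoImplicit false

namespace Pool.Agent.Results.MP_433f59_an.KoebeRange

open Metric Set

/-- `f` is analytic and injective in the open unit disc -/
def Univalent (f : ℂ → ℂ) : Prop := DifferentiableOn ℂ f (ball 0 1) ∧ InjOn f (ball 0 1)

/-- the Koebe function -/
noncomputable def koebe (z : ℂ) : ℂ := z / (1 - z) ^ 2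

/-- the integral mean `((2 π)⁻¹ ∫₀^{2π} |f'(r exp(i θ))|^lam dθ)^(1/lam)` -/
noncomputable def intMean (f : ℂ → ℂ) (lam r : ℝ) : ℝ :=
  ((2 * Real.pi)⁻¹ * ∫ θ in (0 : ℝ)..2 * Real.pi,
    ‖deriv f (r * Complex.exp (θ * Complex.I))‖ ^ lam) ^ (1 / lam)

/-- the supremum over all univalent `f` of `limsup_{r → 1-} log I_lam(r, f') / log (1/(1-r))` -/
noncomputable def beta (lam : ℝ) : EReal :=
  ⨆ f : {f : ℂ → ℂ // Univalent f},
    Filter.limsup (fun r : ℝ =>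
      ((Real.log (intMean f.1 lam r) / Real.log (1 / (1 - r)) : ℝ) : EReal)) (nhdsWithin 1 (Iio 1))

/-- For all `lam ≥ 0.371`: every univalent `f` satisfies `I_lam(r, f') = O((1 - r)^(-(3 - 1/lam)))`, the Koebe
function attains this order, and `beta lam = 3 - 1/lam`. -/
theorem result (lam : ℝ) (hl : 371 / 1000 ≤ lam) :
    (∀ f : ℂ → ℂ, Univalent f →
      ∃ B : ℝ, ∀ r : ℝ, 0 < r → r < 1 → intMean f lam r ≤ B * (1 - r) ^ (-(3 - 1 / lam))) ∧
    (Univalent koebe ∧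
      ∃ c : ℝ, 0 < c ∧ ∀ r : ℝ, 0 < r → r < 1 → c * (1 - r) ^ (-(3 - 1 / lam)) ≤ intMean koebe lam r) ∧
    beta lam = ((3 - 1 / lam : ℝ) : EReal) := by
  have hk : Univalent koebe := ⟨Pool.Agent.Helper21.KP.kb_diff, Pool.Agent.Helper21.KP.kb_inj⟩
  have hup : ∀ f : ℂ → ℂ, Univalent f →
      ∃ B : ℝ, ∀ r : ℝ, 0 < r → r < 1 → intMean f lam r ≤ B * (1 - r) ^ (-(3 - 1 / lam)) := by
    intro f hf
    obtain ⟨B, -, hB⟩ := Pool.Agent.Helper21.KP.km_le hl hf.1 hf.2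
    exact ⟨B, hB⟩
  obtain ⟨c, hc, hlow⟩ := Pool.Agent.Helper21.KP.km_ge (lam := lam) (by linarith)
  refine ⟨hup, ⟨hk, c, hc, hlow⟩, le_antisymm ?_ ?_⟩
  · refine iSup_le fun f => ?_
    obtain ⟨B, hB⟩ := hup f.1 f.2
    exact Pool.Agent.Helper21.KP.ord_le (I := intMean f.1 lam)
      (fun r h0 h1 => Pool.Agent.Helper21.KP.km_pos lam f.2.1 f.2.2 h0 h1) hB
  · exact le_trans (Pool.Agent.Helper21.KP.ord_ge (I := intMean koebe lam) hc hlow)
      (le_iSup (fun f : {f : ℂ → ℂ // Univalent f} =>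
        Filter.limsup (fun r : ℝ =>
          ((Real.log (intMean f.1 lam r) / Real.log (1 / (1 - r)) : ℝ) : EReal)) (nhdsWithin 1 (Iio 1)))
        ⟨koebe, hk⟩)

end Pool.Agent.Results.MP_433f59_an.KoebeRange
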