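import Mathlib
import Pool.Agent.Helper21.IM.Main

/-!
# Integral means of the derivative of univalent functions for small exponents
-/

set_option autoImplicit false

namespace Pool.Agent.Results.MP_433f59_an.SmallExponents

open Metric Set

/-- the integral mean `((2 π)⁻¹ ∫₀^{2π} |f'(r exp(i θ))|^lam dθ)^(1/lam)` -/
noncomputable def intMean (f : ℂ → ℂ) (lam r : ℝ) : ℝ :=
  ((2 * Real.pi)⁻¹ * ∫ θ in (0 : ℝ)..2 * Real.pi,
    ‖deriv f (r * Complex.exp (θ * Complex.I))‖ ^ lam) ^ (1 / lam)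

/-- There is `lam₀ > 0` such that for all `0 < lam ≤ lam₀` and every function `f` which is analytic and
injective in the open unit disc, `I_lam(r, f') = O((1 - r)^(-0.345 lam))` for `0 < r < 1`. -/
theorem result : ∃ lam₀ : ℝ, 0 < lam₀ ∧ ∀ lam : ℝ, 0 < lam → lam ≤ lam₀ → ∀ f : ℂ → ℂ,
    DifferentiableOn ℂ f (ball 0 1) → InjOn f (ball 0 1) →
      ∃ B : ℝ, ∀ r : ℝ, 0 < r → r < 1 → intMean f lam r ≤ B * (1 - r) ^ (-(69 / 200 * lam)) :=
  Pool.Agent.Helper21.IM.int_mean_small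

end Pool.Agent.Results.MP_433f59_an.SmallExponents
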