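import Mathlib
import Pool.Agent.Helper42.KU.Fin
import Pool.Agent.Helper42.LB.Main
import Pool.Agent.Helper21.KP.Main

/-!
# Lower bounds for the order of the integral means, for all exponents `≤ 2/5`
-/

set_option autoImplicit false

namespace Pool.Agent.Results.MP_433f59_an.UniformLowerBound

open Metric Set

/-- `f` is analytic and injective in the open unit disc -/
def Univalent (f : ℂ → ℂ) : Prop := DifferentiableOn ℂ f (ball 0 1) ∧ InjOn f (ball 0 1)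

/-- the integral mean `((2 π)⁻¹ ∫₀^{2π} |f'(r exp(i θ))|^lam dθ)^(1/lam)` -/
noncomputable def intMean (f : ℂ → ℂ) (lam r : ℝ) : ℝ :=
  ((2 * Real.pi)⁻¹ * ∫ θ in (0 : ℝ)..2 * Real.pi,
    ‖deriv f (r * Complex.exp (θ * Complex.I))‖ ^ lam) ^ (1 / lam)

/-- the supremum over all univalent `f` of `limsup_{r → 1-} log I_lam(r, f') / log (1/(1-r))` -/
noncomputable def beta (lam : ℝ) : EReal :=
  ⨆ f : {f : ℂ → ℂ // Univalent f},
    Filter.limsup (fun r : ℝ =>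
      ((Real.log (intMean f.1 lam r) / Real.log (1 / (1 - r)) : ℝ) : EReal)) (nhdsWithin 1 (Iio 1))

private theorem beta_ge {f : ℂ → ℂ} (hf : Univalent f) {lam e c : ℝ} (hc : 0 < c)
    (h : ∀ r : ℝ, 0 < r → r < 1 → c * (1 - r) ^ (-e) ≤ intMean f lam r) :
    ((e : ℝ) : EReal) ≤ beta lam :=
  le_trans (Pool.Agent.Helper21.KP.ord_ge (I := intMean f lam) hc h)
    (le_iSup (fun f : {f : ℂ → ℂ // Univalent f} =>
      Filter.limsup (fun r : ℝ =>
        ((Real.log (intMean f.1 lam r) / Real.log (1 / (1 - r)) : ℝ) : EReal)) (nhdsWithin 1 (Iio 1)))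
      ⟨f, hf⟩)

/-- (1) One univalent function `f` satisfies `I_lam(r, f') ≥ c (1 - r)^(-0.23 lam)` for `0 < r < 1`, for
every `0 < lam ≤ 0.3424`, with some `c > 0` (depending on `lam`). (2) `beta lam ≥ 0.23 lam` for all
`0 < lam ≤ 2/5`. (3) `beta lam > 3 - 1/lam`, the order of the Koebe function, for all
`0 < lam ≤ 0.3423`. (4) There are a univalent function `f` and `lam₀ > 0` such that for all
`0 < lam ≤ lam₀`, `I_lam(r, f') ≥ c (1 - r)^(-0.24 lam)` for `0 < r < 1` with some `c > 0`, and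
`beta lam ≥ 0.24 lam`. -/
theorem result :
    (∃ f : ℂ → ℂ, Univalent f ∧ ∀ lam : ℝ, 0 < lam → lam ≤ 3424 / 10000 →
      ∃ c : ℝ, 0 < c ∧ ∀ r : ℝ, 0 < r → r < 1 →
        c * (1 - r) ^ (-(23 / 100 * lam)) ≤ intMean f lam r) ∧
    (∀ lam : ℝ, 0 < lam → lam ≤ 2 / 5 → ((23 / 100 * lam : ℝ) : EReal) ≤ beta lam) ∧
    (∀ lam : ℝ, 0 < lam → lam ≤ 3423 / 10000 → ((3 - 1 / lam : ℝ) : EReal) < beta lam) ∧
    (∃ f : ℂ → ℂ, Univalent f ∧ ∃ lam₀ : ℝ, 0 < lam₀ ∧ ∀ lam : ℝ, 0 < lam → lam ≤ lam₀ →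
      (∃ c : ℝ, 0 < c ∧ ∀ r : ℝ, 0 < r → r < 1 →
        c * (1 - r) ^ (-(6 / 25 * lam)) ≤ intMean f lam r) ∧
      ((6 / 25 * lam : ℝ) : EReal) ≤ beta lam) := by
  obtain ⟨f, hd, hi, H⟩ := Pool.Agent.Helper42.KU.main_fin
  have hf : Univalent f := ⟨hd, hi⟩
  have h1 : ∀ lam : ℝ, 0 < lam → lam ≤ 3424 / 10000 →
      ((23 / 100 * lam : ℝ) : EReal) ≤ beta lam := by
    intro lam hl hl1
    obtain ⟨c, hc, h⟩ := H lam hl hl1
    exact beta_ge hf hc h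
  refine ⟨⟨f, hf, H⟩, fun lam hl hl1 => ?_, fun lam hl hl1 => ?_, ?_⟩
  · rcases le_total lam (3424 / 10000) with h | h
    · exact h1 lam hl h
    · obtain ⟨c, hc, hk⟩ := Pool.Agent.Helper21.KP.km_ge hl
      have h2 := beta_ge ⟨Pool.Agent.Helper21.KP.kb_diff, Pool.Agent.Helper21.KP.kb_inj⟩ hc hk
      refine le_trans (EReal.coe_le_coe_iff.2 ?_) h2
      have h3 : 1 / lam ≤ 3 - 23 / 100 * lam := by
        rw [div_le_iff₀ hl]
        nlinarith
      linarith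
  · refine lt_of_lt_of_le (EReal.coe_lt_coe_iff.2 ?_) (h1 lam hl (by linarith))
    have h3 : 3 - 23 / 100 * lam < 1 / lam := by
      rw [lt_div_iff₀ hl]
      nlinarith
    linarith
  · obtain ⟨g, gd, gi, p₀, hp0, G⟩ := Pool.Agent.Helper42.LB.main_mean
    refine ⟨g, ⟨gd, gi⟩, p₀, hp0, fun lam hl hl1 => ?_⟩
    obtain ⟨c, hc, hlow⟩ := G lam hl hl1
    exact ⟨⟨c, hc, hlow⟩, beta_ge ⟨gd, gi⟩ hc hlow⟩

end Pool.Agent.Results.MP_433f59_an.UniformLowerBound
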